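import Pool.Agent.Q283.FT.StmB

/-!
# Project JQ of helper44, job JQ-SS (helper177): the maximal subspaces are the graphs of the operators
of families of symmetric matrices
-/

set_option autoImplicit false
set_option linter.unusedVariables false

namespace Pool.Agent.Q283.FT.E

open Finset Module Pool.Agent.Q283.FT
open scoped Classical

/-- a sum over pairs which cancels -/
theorem sum_pairs_zero {ι : Type} [Fintype ι] (f : ι → ι → ZMod 2) (h0 : ∀ a, f a a = 0)
    (h1 : ∀ a b, f a b + f b a = 0) : ∑ a, ∑ b, f a b = 0 := by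
  rw [← Finset.sum_product', Finset.univ_product_univ]
  refine Finset.sum_involution (fun p _ => (p.2, p.1)) ?_ ?_ ?_ ?_
  · intro p _
    exact h1 p.1 p.2
  · rintro ⟨a, b⟩ _ hne heq
    simp only [Prod.mk.injEq] at heq
    apply hne
    rw [heq.1]
    exact h0 a
  · intro p _
    exact mem_univ _
  · intro p _
    rfl

theorem two_eq (a : ZMod 2) : a + a = 0 := CharTwo.add_self_eq_zero a

section sigma

variable {κ : Type} [Fintype κ] {V : κ → Type} [∀ k, AddCommGroup (V k)] [∀ k, Module (ZMod 2) (V k)]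
  {m : κ → ℕ}

theorem sum_sigma_mat (M : ∀ k, Matrix (Fin (m k)) (Fin (m k)) (ZMod 2)) (hM : ∀ k, (M k).transpose = M k)
    (B : ∀ k, Fin (m k) → Fin (m k) → ZMod 2) (h0 : ∀ k a, B k a a = 0)
    (h1 : ∀ k a b, B k a b + B k b a = 0) :
    ∑ c : (Σ k, Fin (m k)), ∑ b, M c.1 c.2 b * B c.1 b c.2 = 0 := by
  rw [Fintype.sum_sigma]
  apply Finset.sum_eq_zero
  intro k _
  apply sum_pairs_zero
  · intro a
    rw [h0, mul_zero]
  · intro a b
    have h2 : M k b a = M k a b := by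
      conv_lhs => rw [← hM k]
      rfl
    show M k a b * B k b a + M k b a * B k a b = 0
    rw [h2, ← mul_add, h1, mul_zero]

theorem opS_single (M : ∀ k, Matrix (Fin (m k)) (Fin (m k)) (ZMod 2)) (k : κ) (b a : Fin (m k)) (v : V k) :
    opS V M (Pi.single (⟨k, b⟩ : Σ k, Fin (m k)) v : UV V m) ⟨k, a⟩ = M k a b • v := by
  show ∑ b', M k a b' • ((Pi.single (⟨k, b⟩ : Σ k, Fin (m k)) v : UV V m) ⟨k, b'⟩ : V k) =
    M k a b • v
  rw [Finset.sum_eq_single b]
  · rw [Pi.single_eq_same]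
  · intro b' _ hb'
    rw [Pi.single_eq_of_ne, smul_zero]
    intro h
    apply hb'
    have := (Sigma.mk.inj_iff.1 h).2
    exact eq_of_heq this
  · intro h
    exact absurd (mem_univ _) h

theorem opS_inj [∀ k, Nontrivial (V k)] : Function.Injective (opS V (m := m)) := by
  intro M M' h
  funext k
  ext a b
  obtain ⟨v, hv⟩ := exists_ne (0 : V k)
  have h1 := opS_single (V := V) M k b a v
  have h2 := opS_single (V := V) M' k b a v
  rw [h, h2] at h1
  have h3 : (M k a b - M' k a b) • v = 0 := by rw [sub_smul, h1, sub_self]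
  rcases smul_eq_zero.1 h3 with h4 | h4
  · exact sub_eq_zero.1 h4
  · exact absurd h4 hv

theorem card_sym : ((univ : Finset (∀ k, Matrix (Fin (m k)) (Fin (m k)) (ZMod 2))).filter
    fun M => ∀ k, (M k).transpose = M k).card = ∏ k, 2 ^ (m k * (m k + 1) / 2) := by
  let Ψ : (∀ k, Sym2 (Fin (m k)) → ZMod 2) → ∀ k, Matrix (Fin (m k)) (Fin (m k)) (ZMod 2) :=
    fun F k => Matrix.of fun a b => F k s(a, b)
  have h1 : ((univ : Finset (∀ k, Matrix (Fin (m k)) (Fin (m k)) (ZMod 2))).filter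
      fun M => ∀ k, (M k).transpose = M k) = univ.image Ψ := by
    ext M
    rw [mem_filter, mem_image]
    constructor
    · rintro ⟨_, hM⟩
      refine ⟨fun k => Sym2.lift ⟨fun a b => M k a b, fun a b => ?_⟩, mem_univ _, ?_⟩
      · show M k a b = M k b a
        conv_lhs => rw [← hM k]
        rfl
      · funext k
        ext a b
        rfl
    · rintro ⟨F, _, rfl⟩
      refine ⟨mem_univ _, fun k => ?_⟩
      ext a b
      show F k s(b, a) = F k s(a, b)
      rw [Sym2.eq_swap]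
  have h2 : Function.Injective Ψ := by
    intro F F' h
    funext k x
    induction x using Sym2.ind with
    | _ a b => exact congrFun (congrFun (congrFun h k) a) b
  rw [h1, Finset.card_image_of_injective _ h2, Finset.card_univ, Fintype.card_pi]
  refine Finset.prod_congr rfl fun k _ => ?_
  rw [Fintype.card_fun, ZMod.card, Sym2.card, Fintype.card_fin, Nat.choose_two_right,
    Nat.add_sub_cancel, mul_comm]

/-- the diagonal action of a family of endomorphisms -/
def dgE (V : κ → Type) [∀ k, AddCommGroup (V k)] [∀ k, Module (ZMod 2) (V k)] {m : κ → ℕ}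
    (E : ∀ k, Module.End (ZMod 2) (V k)) (x : UV V m) : UV V m := fun c => E c.1 (x c)

theorem dgE_add (E E' : ∀ k, Module.End (ZMod 2) (V k)) (x : UV V m) :
    dgE V (E + E') x = dgE V E x + dgE V E' x := rfl

theorem dgE_mul (E E' : ∀ k, Module.End (ZMod 2) (V k)) (x : UV V m) :
    dgE V (E * E') x = dgE V E (dgE V E' x) := rfl

theorem dgE_algebraMap (a : ZMod 2) (x : UV V m) :
    dgE V (algebraMap (ZMod 2) (∀ k, Module.End (ZMod 2) (V k)) a) x = a • x := by
  funext c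
  show (algebraMap (ZMod 2) (∀ k, Module.End (ZMod 2) (V k)) a c.1) (x c) = a • x c
  rw [Pi.algebraMap_apply, Module.algebraMap_end_apply]

/-- invariance under everything -/
theorem inv_all {s : Type} [Fintype s] (t₀ : s) (D : ∀ k, Dj s (V k)) (hadj : Adj t₀ D)
    (Λ : Submodule (ZMod 2) (UV V m × UV V m))
    (hinv : ∀ φ : s → ZMod 2, sgz φ t₀ = 0 → ∀ z ∈ Λ,
      (dgE V (fun k => (D k).T φ) z.1, dgE V (fun k => (D k).T φ) z.2) ∈ Λ)
    (E : ∀ k, Module.End (ZMod 2) (V k)) : ∀ z ∈ Λ, (dgE V E z.1, dgE V E z.2) ∈ Λ := by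
  have hE : E ∈ Algebra.adjoin (ZMod 2) (Set.range fun φ : {φ : s → ZMod 2 // sgz φ t₀ = 0} =>
    (fun k => (D k).T φ.1 : ∀ k, Module.End (ZMod 2) (V k))) := by
    rw [show Algebra.adjoin (ZMod 2) (Set.range fun φ : {φ : s → ZMod 2 // sgz φ t₀ = 0} =>
      (fun k => (D k).T φ.1 : ∀ k, Module.End (ZMod 2) (V k))) = ⊤ from hadj]
    exact Algebra.mem_top
  induction hE using Algebra.adjoin_induction with
  | mem x hx =>
    obtain ⟨φ, rfl⟩ := hx
    exact hinv φ.1 φ.2
  | algebraMap a =>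
    intro z hz
    rw [dgE_algebraMap, dgE_algebraMap]
    exact Λ.smul_mem a hz
  | add x y _ _ hx hy =>
    intro z hz
    rw [dgE_add, dgE_add]
    exact Λ.add_mem (hx z hz) (hy z hz)
  | mul x y _ _ hx hy =>
    intro z hz
    rw [dgE_mul, dgE_mul]
    exact hx _ (hy z hz)

/-- the endomorphism with a given action at one index -/
noncomputable def atk (V : κ → Type) [∀ k, AddCommGroup (V k)] [∀ k, Module (ZMod 2) (V k)] (k : κ)
    (e : Module.End (ZMod 2) (V k)) : ∀ k, Module.End (ZMod 2) (V k) := Pi.single k e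

theorem dgE_atk (k : κ) (e : Module.End (ZMod 2) (V k)) (x : UV V m) :
    dgE V (atk V k e) x = ∑ b, (Pi.single (⟨k, b⟩ : Σ k, Fin (m k)) (e (x ⟨k, b⟩)) : UV V m) := by
  funext c
  obtain ⟨k', a⟩ := c
  show (atk V k e k') (x ⟨k', a⟩) = _
  rw [Finset.sum_apply]
  by_cases h : k' = k
  · subst h
    unfold atk
    rw [Pi.single_eq_same, Finset.sum_eq_single a]
    · rw [Pi.single_eq_same]
    · intro b _ hb
      rw [Pi.single_eq_of_ne]
      intro h
      exact hb (eq_of_heq (Sigma.mk.inj_iff.1 h).2).symm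
    · intro h
      exact absurd (mem_univ _) h
  · unfold atk
    rw [Pi.single_eq_of_ne h]
    symm
    apply Finset.sum_eq_zero
    intro b _
    rw [Pi.single_eq_of_ne]
    intro h'
    exact h (Sigma.mk.inj_iff.1 h').1

/-- the rank one endomorphism -/
noncomputable def rk1 {W : Type} [AddCommGroup W] [Module (ZMod 2) W] (f : Module.Dual (ZMod 2) W)
    (v : W) : Module.End (ZMod 2) W := f.smulRight v

/-- the first projection is everything -/
theorem fst_top (M : Submodule (ZMod 2) (UV V m))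
    (hinv : ∀ E : ∀ k, Module.End (ZMod 2) (V k), ∀ x ∈ M, dgE V E x ∈ M) (hG : GmD V M) : M = ⊤ := by
  have key : ∀ (k : κ) (v : V k), (⊤ : Submodule (ZMod 2) (Fin (m k) → ZMod 2)) ≤
      M.comap (LinearMap.pi fun c : (Σ k, Fin (m k)) =>
        ∑ b, (LinearMap.proj b : (Fin (m k) → ZMod 2) →ₗ[ZMod 2] ZMod 2).smulRight
          ((Pi.single (⟨k, b⟩ : Σ k, Fin (m k)) v : UV V m) c)) := by
    intro k v
    set L : (Fin (m k) → ZMod 2) →ₗ[ZMod 2] UV V m := LinearMap.pi fun c : (Σ k, Fin (m k)) =>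
        ∑ b, (LinearMap.proj b : (Fin (m k) → ZMod 2) →ₗ[ZMod 2] ZMod 2).smulRight
          ((Pi.single (⟨k, b⟩ : Σ k, Fin (m k)) v : UV V m) c) with hL
    have hLe : ∀ g, L g = ∑ b, g b • (Pi.single (⟨k, b⟩ : Σ k, Fin (m k)) v : UV V m) := by
      intro g
      funext c
      rw [hL]
      simp only [LinearMap.pi_apply, LinearMap.sum_apply, LinearMap.smulRight_apply,
        LinearMap.proj_apply, Finset.sum_apply, Pi.smul_apply]
    by_contra hcon
    have hlt : M.comap L < ⊤ := lt_top_iff_ne_top.2 fun h => hcon (by rw [h])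
    obtain ⟨F, hF, hFM⟩ := Submodule.exists_dual_map_eq_bot_of_lt_top hlt inferInstance
    have hF0 : ∀ g ∈ M.comap L, F g = 0 := by
      intro g hg
      have : F g ∈ (M.comap L).map F := Submodule.mem_map_of_mem hg
      rw [hFM] at this
      exact this
    set c : Fin (m k) → ZMod 2 := fun b => F (Pi.single b 1) with hc
    have hFc : ∀ g, F g = ∑ b, g b * c b := by
      intro g
      conv_lhs => rw [← LinearMap.sum_single_apply (fun _ => ZMod 2) g]
      rw [map_sum]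
      refine Finset.sum_congr rfl fun b _ => ?_
      have : (Pi.single b (g b) : Fin (m k) → ZMod 2) =
          g b • (Pi.single b (1 : ZMod 2) : Fin (m k) → ZMod 2) := by
        rw [← Pi.single_smul', smul_eq_mul, mul_one]
      rw [this, map_smul, smul_eq_mul]
    have hc0 : c ≠ 0 := by
      intro h
      apply hF
      apply LinearMap.ext
      intro g
      rw [hFc, h]
      simp
    obtain ⟨x, hx, hxc⟩ := hG k c hc0
    apply hxc
    rw [← Module.forall_dual_apply_eq_zero_iff (ZMod 2)]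
    intro f
    have h1 : L (fun b => f (x ⟨k, b⟩)) ∈ M := by
      have h2 := hinv (atk V k (rk1 f v)) x hx
      rw [dgE_atk] at h2
      rw [hLe]
      have h3 : ∀ b : Fin (m k), (Pi.single (⟨k, b⟩ : Σ k, Fin (m k)) ((rk1 f v) (x ⟨k, b⟩)) : UV V m) =
          f (x ⟨k, b⟩) • (Pi.single (⟨k, b⟩ : Σ k, Fin (m k)) v : UV V m) := by
        intro b
        rw [← Pi.single_smul]
        rfl
      simp only [h3] at h2
      exact h2
    have h2 := hF0 _ h1
    rw [hFc] at h2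
    rw [map_sum, ← h2]
    refine Finset.sum_congr rfl fun b _ => ?_
    rw [map_smul, smul_eq_mul, mul_comm]
  rw [eq_top_iff]
  intro x _
  have hx : x = ∑ c : (Σ k, Fin (m k)), (Pi.single c (x c) : UV V m) := by
    funext c
    rw [Finset.sum_apply, Finset.sum_eq_single c]
    · rw [Pi.single_eq_same]
    · intro b _ hb
      rw [Pi.single_eq_of_ne hb.symm]
    · intro h
      exact absurd (mem_univ _) h
  rw [hx]
  apply M.sum_mem
  rintro ⟨k, b⟩ _
  have h1 := key k (x ⟨k, b⟩) (Submodule.mem_top (x := (Pi.single b 1 : Fin (m k) → ZMod 2)))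
  rw [Submodule.mem_comap] at h1
  have h2 : (LinearMap.pi fun c : (Σ k, Fin (m k)) =>
        ∑ b', (LinearMap.proj b' : (Fin (m k) → ZMod 2) →ₗ[ZMod 2] ZMod 2).smulRight
          ((Pi.single (⟨k, b'⟩ : Σ k, Fin (m k)) (x ⟨k, b⟩) : UV V m) c))
          (Pi.single b 1 : Fin (m k) → ZMod 2) =
      (Pi.single (⟨k, b⟩ : Σ k, Fin (m k)) (x ⟨k, b⟩) : UV V m) := by
    funext c
    simp only [LinearMap.pi_apply, LinearMap.sum_apply, LinearMap.smulRight_apply,
        LinearMap.proj_apply]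
    rw [Finset.sum_eq_single b]
    · rw [Pi.single_eq_same, one_smul]
    · intro b' _ hb'
      rw [Pi.single_eq_of_ne hb', zero_smul]
    · intro h
      exact absurd (mem_univ _) h
  rw [← h2]
  exact h1

/-- an endomorphism which commutes with everything is a scalar -/
theorem scal {W : Type} [AddCommGroup W] [Module (ZMod 2) W] [Nontrivial W]
    (L : Module.End (ZMod 2) W) (h : ∀ e : Module.End (ZMod 2) W, ∀ x, L (e x) = e (L x)) :
    ∃ a : ZMod 2, ∀ x, L x = a • x := by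
  obtain ⟨v, hv⟩ := exists_ne (0 : W)
  obtain ⟨f, hf⟩ : ∃ f : Module.Dual (ZMod 2) W, f v ≠ 0 := by
    by_contra hcon
    push Not at hcon
    exact hv ((Module.forall_dual_apply_eq_zero_iff (ZMod 2) v).1 hcon)
  have hf1 : f v = 1 := by
    revert hf
    generalize f v = a
    revert a
    decide
  refine ⟨f (L v), fun x => ?_⟩
  have h1 := h (rk1 f x) v
  have h2 : (rk1 f x) v = x := by
    show f v • x = x
    rw [hf1, one_smul]
  rw [h2] at h1
  exact h1

end sigma

section main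

variable {s κ : Type} [Fintype s] [Fintype κ] {V : κ → Type} [∀ k, AddCommGroup (V k)]
  [∀ k, Module (ZMod 2) (V k)] {m : κ → ℕ}

theorem DD_ω (t₀ : s) (D : ∀ k, Dj s (V k)) (x y : UV V m) :
    (DD t₀ D m).ω x y = ∑ c : (Σ k, Fin (m k)), (D c.1).ω (x c) (y c) := rfl

theorem DD_T (t₀ : s) (D : ∀ k, Dj s (V k)) (φ : s → ZMod 2) (x : UV V m) :
    (DD t₀ D m).T φ x = dgE V (fun k => (D k).T φ) x := rfl

theorem DD_mem (t₀ : s) (D : ∀ k, Dj s (V k)) (y : (s → UV V m) × (s → UV V m)) :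
    y ∈ (DD t₀ D m).𝓛 ↔ ∀ c : (Σ k, Fin (m k)), ((fun t => y.1 t c), (fun t => y.2 t c)) ∈ (D c.1).𝓛 :=
  Iff.rfl

theorem opS_dgE (M : ∀ k, Matrix (Fin (m k)) (Fin (m k)) (ZMod 2))
    (E : ∀ k, Module.End (ZMod 2) (V k)) (x : UV V m) :
    opS V M (dgE V E x) = dgE V E (opS V M x) := by
  funext c
  show ∑ b, M c.1 c.2 b • E c.1 (x ⟨c.1, b⟩) = E c.1 (∑ b, M c.1 c.2 b • x ⟨c.1, b⟩)
  rw [map_sum]
  exact Finset.sum_congr rfl fun b _ => (map_smul _ _ _).symm

theorem ω_swap (D : ∀ k, Dj s (V k)) (hD : ∀ k, (D k).Sym) (k : κ) (x y : V k) :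
    (D k).ω x y + (D k).ω y x = 0 := by
  have h := (hD k).alt (x + y)
  rw [map_add, map_add, LinearMap.add_apply, LinearMap.add_apply, (hD k).alt, (hD k).alt, zero_add,
    add_zero] at h
  rw [add_comm]
  exact h

theorem ω_opS (t₀ : s) (D : ∀ k, Dj s (V k)) (M : ∀ k, Matrix (Fin (m k)) (Fin (m k)) (ZMod 2))
    (x y : UV V m) : (DD t₀ D m).ω (opS V M x) y =
      ∑ c : (Σ k, Fin (m k)), ∑ b, M c.1 c.2 b * (D c.1).ω (x ⟨c.1, b⟩) (y c) := by
  rw [DD_ω]
  refine Finset.sum_congr rfl fun c _ => ?_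
  show (D c.1).ω (∑ b, M c.1 c.2 b • x ⟨c.1, b⟩) (y c) = _
  rw [map_sum, LinearMap.sum_apply]
  refine Finset.sum_congr rfl fun b _ => ?_
  rw [map_smul, LinearMap.smul_apply, smul_eq_mul]

/-- the bilinear form of `q` -/
noncomputable def Bq {W : Type} [AddCommGroup W] [Module (ZMod 2) W] (D : Dj s W)
    (y y' : (s → W) × (s → W)) : ZMod 2 :=
  ∑ t, D.ω (y.2 t) (y'.1 t) + ∑ t, D.ω (y.2 t) (D.T (Pi.single t 1) (y'.2 t))

theorem Bq_self {W : Type} [AddCommGroup W] [Module (ZMod 2) W] (D : Dj s W)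
    (y : (s → W) × (s → W)) : Bq D y y = D.q y := rfl

theorem Bq_add {W : Type} [AddCommGroup W] [Module (ZMod 2) W] (D : Dj s W)
    (y y' : (s → W) × (s → W)) : Bq D (y + y') (y + y') =
      Bq D y y + Bq D y' y' + (Bq D y y' + Bq D y' y) := by
  unfold Bq
  simp only [Prod.fst_add, Prod.snd_add, Pi.add_apply, map_add, LinearMap.add_apply,
    sum_add_distrib]
  ring

theorem Bq_swap {W : Type} [AddCommGroup W] [Module (ZMod 2) W] (D : Dj s W)
    (hs : ∀ y ∈ D.𝓛, D.q y = 0) {y y' : (s → W) × (s → W)} (hy : y ∈ D.𝓛) (hy' : y' ∈ D.𝓛) :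
    Bq D y y' + Bq D y' y = 0 := by
  have h := Bq_add D y y'
  rw [Bq_self, Bq_self, Bq_self, hs _ (D.𝓛.add_mem hy hy'), hs _ hy, hs _ hy'] at h
  rw [← zero_add (Bq D y y' + Bq D y' y), ← add_zero (0 : ZMod 2), ← h]
  ring

theorem tw_q (t₀ : s) (D : ∀ k, Dj s (V k)) (M : ∀ k, Matrix (Fin (m k)) (Fin (m k)) (ZMod 2))
    (y : (s → UV V m) × (s → UV V m)) : ((DD t₀ D m).tw (opS V M)).q y =
      ∑ c : (Σ k, Fin (m k)), ∑ b, M c.1 c.2 b *
        Bq (D c.1) ((fun t => y.1 t ⟨c.1, b⟩), (fun t => y.2 t ⟨c.1, b⟩))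
          ((fun t => y.1 t c), (fun t => y.2 t c)) := by
  have h1 : ((DD t₀ D m).tw (opS V M)).q y =
      ∑ t, (DD t₀ D m).ω (opS V M (y.2 t)) (y.1 t) +
      ∑ t, (DD t₀ D m).ω (opS V M (y.2 t)) ((DD t₀ D m).T (Pi.single t 1) (y.2 t)) := rfl
  rw [h1]
  simp only [ω_opS, DD_T]
  rw [Finset.sum_comm, Finset.sum_comm (s := univ (α := s)), ← sum_add_distrib]
  refine Finset.sum_congr rfl fun c _ => ?_
  rw [Finset.sum_comm, Finset.sum_comm (s := univ (α := s)), ← sum_add_distrib]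
  refine Finset.sum_congr rfl fun b _ => ?_
  unfold Bq
  rw [mul_add, mul_sum, mul_sum]
  rfl

theorem part2 (t₀ : s) (ρ : s → ZMod 2) (D : ∀ k, Dj s (V k)) (hok : ∀ k, (D k).Ok ρ)
    [∀ k, Nontrivial (V k)] (S : UV V m →ₗ[ZMod 2] UV V m) (hS : S ∈ SS V m) :
    (∀ φ x, S ((DD t₀ D m).T φ x) = (DD t₀ D m).T φ (S x)) ∧
    (∀ x, (DD t₀ D m).ω (S x) x = 0) ∧
    (∀ y ∈ (DD t₀ D m).𝓛, ((DD t₀ D m).tw S).q y = 0) ∧
    GmD V (⊤ : Submodule (ZMod 2) (UV V m)) := by
  unfold SS at hS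
  rw [mem_image] at hS
  obtain ⟨M, hM, rfl⟩ := hS
  have hM' : ∀ k, (M k).transpose = M k := (mem_filter.1 hM).2
  refine ⟨?_, ?_, ?_, ?_⟩
  · intro φ x
    rw [DD_T, DD_T, opS_dgE]
  · intro x
    rw [ω_opS]
    exact sum_sigma_mat M hM' (fun k b a => (D k).ω (x ⟨k, b⟩) (x ⟨k, a⟩))
      (fun k a => (hok k).alt _) (fun k a b => ω_swap D (fun k => (hok k).toSym) k _ _)
  · intro y hy
    rw [tw_q]
    rw [DD_mem] at hy
    exact sum_sigma_mat M hM'
      (fun k b a => Bq (D k) ((fun t => y.1 t ⟨k, b⟩), (fun t => y.2 t ⟨k, b⟩))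
          ((fun t => y.1 t ⟨k, a⟩), (fun t => y.2 t ⟨k, a⟩)))
      (fun k a => (hok k).sing _ (hy ⟨k, a⟩))
      (fun k a b => Bq_swap (D k) (hok k).sing (hy ⟨k, a⟩) (hy ⟨k, b⟩))
  · intro k c hc
    obtain ⟨b0, hb0⟩ : ∃ b0, c b0 ≠ 0 := by
      by_contra hcon
      push Not at hcon
      exact hc (funext hcon)
    obtain ⟨v, hv⟩ := exists_ne (0 : V k)
    refine ⟨(Pi.single (⟨k, b0⟩ : Σ k, Fin (m k)) v : UV V m), Submodule.mem_top, ?_⟩
    rw [Finset.sum_eq_single b0]
    · show c b0 • (Pi.single (⟨k, b0⟩ : Σ k, Fin (m k)) v : UV V m) ⟨k, b0⟩ ≠ 0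
      rw [Pi.single_eq_same]
      exact smul_ne_zero hb0 hv
    · intro b _ hb
      show c b • (Pi.single (⟨k, b0⟩ : Σ k, Fin (m k)) v : UV V m) ⟨k, b⟩ = 0
      rw [Pi.single_eq_of_ne, smul_zero]
      intro h
      exact hb (eq_of_heq (Sigma.mk.inj_iff.1 h).2)
    · intro h
      exact absurd (mem_univ _) h

theorem part3 [∀ k, Finite (V k)] [∀ k, Nontrivial (V k)] (t₀ : s) (ρ : s → ZMod 2)
    (D : ∀ k, Dj s (V k)) (hok : ∀ k, (D k).Ok ρ) (hadj : Adj t₀ D)
    (Λ : Submodule (ZMod 2) (UV V m × UV V m)) (hsing : ∀ z ∈ Λ, (DD t₀ D m).ω z.2 z.1 = 0)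
    (hcard : Nat.card Λ = Nat.card (UV V m))
    (hG : GmD V (Λ.map (LinearMap.fst (ZMod 2) (UV V m) (UV V m))))
    (hinv : ∀ φ : s → ZMod 2, sgz φ t₀ = 0 → ∀ z ∈ Λ,
      ((DD t₀ D m).T φ z.1, (DD t₀ D m).T φ z.2) ∈ Λ) :
    ∃ S ∈ SS V m, ∀ z, z ∈ Λ ↔ z.2 = S z.1 := by
  have hall := inv_all t₀ D hadj Λ hinv
  have htop := fst_top (Λ.map (LinearMap.fst (ZMod 2) (UV V m) (UV V m))) (by
    rintro E x hx
    rw [Submodule.mem_map] at hx ⊢
    obtain ⟨z, hz, rfl⟩ := hx
    exact ⟨_, hall E z hz, rfl⟩) hG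
  set p : Λ →ₗ[ZMod 2] UV V m := (LinearMap.fst (ZMod 2) (UV V m) (UV V m)).comp Λ.subtype with hp
  have hsurj : Function.Surjective p := by
    intro x
    have hx : x ∈ Λ.map (LinearMap.fst (ZMod 2) (UV V m) (UV V m)) := by
      rw [htop]; exact Submodule.mem_top
    rw [Submodule.mem_map] at hx
    obtain ⟨z, hz, rfl⟩ := hx
    exact ⟨⟨z, hz⟩, rfl⟩
  have hfin : Finite (UV V m) := Pi.finite
  have hfin2 : Finite Λ := inferInstance
  have hbij : Function.Bijective p := by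
    haveI := Fintype.ofFinite Λ
    haveI := Fintype.ofFinite (UV V m)
    rw [Fintype.bijective_iff_surjective_and_card]
    refine ⟨hsurj, ?_⟩
    rw [← Nat.card_eq_fintype_card, ← Nat.card_eq_fintype_card, hcard]
  set e : Λ ≃ₗ[ZMod 2] UV V m := LinearEquiv.ofBijective p hbij with he
  set S : UV V m →ₗ[ZMod 2] UV V m :=
    (LinearMap.snd (ZMod 2) (UV V m) (UV V m)).comp (Λ.subtype.comp e.symm.toLinearMap) with hS
  have hgraph : ∀ z, z ∈ Λ ↔ z.2 = S z.1 := by
    intro z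
    constructor
    · intro hz
      have h1 : e ⟨z, hz⟩ = z.1 := rfl
      have h2 : e.symm z.1 = ⟨z, hz⟩ := by rw [← h1, e.symm_apply_apply]
      show z.2 = ((e.symm z.1 : Λ) : UV V m × UV V m).2
      rw [h2]
    · intro hz
      have h1 : ((e.symm z.1 : Λ) : UV V m × UV V m).1 = z.1 := e.apply_symm_apply z.1
      have h2 : ((e.symm z.1 : Λ) : UV V m × UV V m) = z := Prod.ext h1 hz.symm
      rw [← h2]
      exact (e.symm z.1).2
  have hSE : ∀ (E : ∀ k, Module.End (ZMod 2) (V k)) (x : UV V m), S (dgE V E x) = dgE V E (S x) := by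
    intro E x
    have h1 : (x, S x) ∈ Λ := (hgraph _).2 rfl
    have h2 := hall E _ h1
    rw [hgraph] at h2
    exact h2.symm
  have hSω : ∀ x, (DD t₀ D m).ω (S x) x = 0 := fun x => hsing _ ((hgraph (x, S x)).2 rfl)
  -- the entries
  have hker : ∀ (k k' : κ) (b : Fin (m k)) (a : Fin (m k')), k' ≠ k → ∀ v : V k,
      S (Pi.single (⟨k, b⟩ : Σ k, Fin (m k)) v : UV V m) ⟨k', a⟩ = 0 := by
    intro k k' b a hne v
    have h1 := hSE (atk V k' 0) (Pi.single (⟨k, b⟩ : Σ k, Fin (m k)) v : UV V m)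
    have h2 := hSE (atk V k 1) (Pi.single (⟨k, b⟩ : Σ k, Fin (m k)) v : UV V m)
    have h3 : dgE V (atk V k 1) (Pi.single (⟨k, b⟩ : Σ k, Fin (m k)) v : UV V m) =
        (Pi.single (⟨k, b⟩ : Σ k, Fin (m k)) v : UV V m) := by
      funext c
      obtain ⟨k'', a'⟩ := c
      show (atk V k 1 k'') ((Pi.single (⟨k, b⟩ : Σ k, Fin (m k)) v : UV V m) ⟨k'', a'⟩) = _
      by_cases h : k'' = k
      · subst h
        unfold atk
        rw [Pi.single_eq_same]
        rfl
      · rw [Pi.single_eq_of_ne (fun h' => h (Sigma.mk.inj_iff.1 h').1), map_zero]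
    rw [h3] at h2
    rw [h2]
    show (atk V k 1 k') _ = 0
    unfold atk
    rw [Pi.single_eq_of_ne hne]
    rfl
  have hent : ∀ (k : κ) (b a : Fin (m k)), ∃ r : ZMod 2, ∀ v : V k,
      S (Pi.single (⟨k, b⟩ : Σ k, Fin (m k)) v : UV V m) ⟨k, a⟩ = r • v := by
    intro k b a
    let L : Module.End (ZMod 2) (V k) :=
      (LinearMap.proj (⟨k, a⟩ : Σ k, Fin (m k)) : UV V m →ₗ[ZMod 2] V k).comp
        (S.comp (LinearMap.single (ZMod 2) (fun c : (Σ k, Fin (m k)) => V c.1) ⟨k, b⟩))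
    have hL : ∀ v, L v = S (Pi.single (⟨k, b⟩ : Σ k, Fin (m k)) v : UV V m) ⟨k, a⟩ := fun v => rfl
    obtain ⟨r, hr⟩ := scal L (by
      intro f v
      have h1 := hSE (atk V k f) (Pi.single (⟨k, b⟩ : Σ k, Fin (m k)) v : UV V m)
      have h3 : dgE V (atk V k f) (Pi.single (⟨k, b⟩ : Σ k, Fin (m k)) v : UV V m) =
          (Pi.single (⟨k, b⟩ : Σ k, Fin (m k)) (f v) : UV V m) := by
        rw [dgE_atk, Finset.sum_eq_single b]
        · rw [Pi.single_eq_same]
        · intro b' _ hb'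
          rw [Pi.single_eq_of_ne, map_zero, Pi.single_zero]
          intro h
          exact hb' (eq_of_heq (Sigma.mk.inj_iff.1 h).2)
        · intro h
          exact absurd (mem_univ _) h
      rw [h3] at h1
      rw [hL, hL, h1]
      show (atk V k f k) _ = _
      unfold atk
      rw [Pi.single_eq_same])
    exact ⟨r, fun v => by rw [← hL, hr]⟩
  choose M hM using fun k (b a : Fin (m k)) => hent k b a
  have hSM : S = opS V (fun k => Matrix.of fun a b => M k b a) := by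
    apply LinearMap.ext
    intro x
    funext c
    obtain ⟨k, a⟩ := c
    have hx : x = ∑ c : (Σ k, Fin (m k)), (Pi.single c (x c) : UV V m) := by
      funext c
      rw [Finset.sum_apply, Finset.sum_eq_single c]
      · rw [Pi.single_eq_same]
      · intro b _ hb
        rw [Pi.single_eq_of_ne hb.symm]
      · intro h
        exact absurd (mem_univ _) h
    have h1 : S x ⟨k, a⟩ = ∑ c : (Σ k, Fin (m k)), S (Pi.single c (x c) : UV V m) ⟨k, a⟩ := by
      conv_lhs => rw [hx]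
      rw [map_sum, Finset.sum_apply]
    rw [h1, Fintype.sum_sigma, Finset.sum_eq_single k]
    · show _ = (∑ b, M k b a • x ⟨k, b⟩ : V k)
      exact Finset.sum_congr rfl fun b _ => hM k b a _
    · intro k' _ hk'
      apply Finset.sum_eq_zero
      intro b _
      exact hker k' k b a hk'.symm _
    · intro h
      exact absurd (mem_univ _) h
  refine ⟨S, ?_, hgraph⟩
  unfold SS
  rw [mem_image]
  refine ⟨fun k => Matrix.of fun a b => M k b a, ?_, hSM.symm⟩
  rw [mem_filter]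
  refine ⟨mem_univ _, fun k => ?_⟩
  ext a b
  show M k a b = M k b a
  by_cases hab : a = b
  · rw [hab]
  obtain ⟨u, hu⟩ := exists_ne (0 : V k)
  obtain ⟨v, huv⟩ : ∃ v, (D k).ω u v ≠ 0 := by
    by_contra hcon
    push Not at hcon
    exact hu ((hok k).nd u hcon)
  set x1 : UV V m := Pi.single (⟨k, a⟩ : Σ k, Fin (m k)) u with hx1
  set x2 : UV V m := Pi.single (⟨k, b⟩ : Σ k, Fin (m k)) v with hx2
  have h1 := hSω (x1 + x2)
  rw [map_add, map_add, map_add, LinearMap.add_apply, LinearMap.add_apply, hSω, hSω, zero_add,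
    add_zero] at h1
  have e1 : (DD t₀ D m).ω (S x1) x2 = M k a b * (D k).ω u v := by
    rw [DD_ω, Finset.sum_eq_single (⟨k, b⟩ : Σ k, Fin (m k))]
    · show (D k).ω (S x1 ⟨k, b⟩) (x2 ⟨k, b⟩) = _
      rw [hx1, hM k a b u, hx2, Pi.single_eq_same, map_smul, LinearMap.smul_apply, smul_eq_mul]
    · intro c _ hc
      rw [hx2, Pi.single_eq_of_ne hc, map_zero]
    · intro h
      exact absurd (mem_univ _) h
  have e2 : (DD t₀ D m).ω (S x2) x1 = M k b a * (D k).ω v u := by
    rw [DD_ω, Finset.sum_eq_single (⟨k, a⟩ : Σ k, Fin (m k))]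
    · show (D k).ω (S x2 ⟨k, a⟩) (x1 ⟨k, a⟩) = _
      rw [hx2, hM k b a v, hx1, Pi.single_eq_same, map_smul, LinearMap.smul_apply, smul_eq_mul]
    · intro c _ hc
      rw [hx1, Pi.single_eq_of_ne hc, map_zero]
    · intro h
      exact absurd (mem_univ _) h
  rw [e1, e2] at h1
  have h2 : (D k).ω v u = (D k).ω u v := by
    have h3 := ω_swap D (fun k => (hok k).toSym) k u v
    have h4 := two_eq ((D k).ω u v)
    calc (D k).ω v u = (D k).ω u v + (D k).ω v u - (D k).ω u v := by ring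
      _ = 0 - (D k).ω u v := by rw [h3]
      _ = ((D k).ω u v + (D k).ω u v) - (D k).ω u v := by rw [h4]
      _ = (D k).ω u v := by ring
  rw [h2] at h1
  have h5 : (M k a b + M k b a) * (D k).ω u v = 0 := by rw [add_mul, add_comm]; exact h1
  have h6 := (mul_eq_zero.1 h5).resolve_right huv
  have h7 := two_eq (M k b a)
  calc M k a b = M k a b + M k b a - M k b a := by ring
    _ = 0 - M k b a := by rw [h6]
    _ = (M k b a + M k b a) - M k b a := by rw [h7]
    _ = M k b a := by ring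

end main

theorem t_SS : S_SS := by
  intro s κ _ _ V _ _ _ _ t₀ ρ D _ hok hadj m
  refine ⟨?_, part2 t₀ ρ D hok, part3 t₀ ρ D hok hadj⟩
  unfold SS
  rw [Finset.card_image_of_injective _ opS_inj, card_sym]
  push_cast
  rfl

end Pool.Agent.Q283.FT.E
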